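import Mathlib
import Pool.Agent.Helper53.TorusMain

set_option autoImplicit false

open MeasureTheory Metric Set
open scoped ENNReal NNReal

namespace Pool.Agent.Results.MP_1a3145_co.ConcentricMeasures

/-- Euclidean three-space. -/
abbrev E3 : Type := EuclideanSpace ℝ (Fin 3)

/-- The flat circle `{c + r (cos t · u + sin t · w) : t ∈ [0, 2π)}`. -/
def flatCircle (c u w : E3) (r : ℝ) : Set E3 :=
  {x | ∃ t ∈ Ico (0 : ℝ) (2 * Real.pi), x = c + r • (Real.cos t • u + Real.sin t • w)}

/-- The solid `α`-neighbourhood `{x : dist(x, S) ≤ α}` of a set `S`. -/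
def solid (S : Set E3) (α : ℝ) : Set E3 := {x | infDist x S ≤ α}

/-- `T` is a regular torus: `T = {x : dist(x, S) ≤ α}` for a flat circle `S` of radius `r ≥ 0`
(spanned by orthonormal `u`, `w`) and a real number `α > 0`. -/
def IsRegularTorus (T : Set E3) : Prop :=
  ∃ (c u w : E3) (r α : ℝ), ‖u‖ = 1 ∧ ‖w‖ = 1 ∧ inner ℝ u w = 0 ∧ 0 ≤ r ∧ 0 < α ∧
    T = solid (flatCircle c u w r) α

/-- There are five finite absolutely continuous measures on `ℝ³` (with bounded densities, with
the same null sets as Lebesgue measure, and invariant under all linear isometries) such that no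
regular torus contains exactly half of each of them. -/
theorem result : ∃ μ : Fin 5 → Measure E3,
    (∀ i, IsFiniteMeasure (μ i)) ∧ (∀ i, μ i ≪ volume) ∧
    (∀ i, ∃ C : ℝ≥0, ∀ A : Set E3, μ i A ≤ C * volume A) ∧
    (∀ i, volume ≪ μ i) ∧
    (∀ i, ∀ R : E3 ≃ₗᵢ[ℝ] E3, (μ i).map R = μ i) ∧
    ¬ ∃ T : Set E3, IsRegularTorus T ∧ ∀ i, μ i T = μ i univ / 2 :=
  Helper53.Torus.main

end Pool.Agent.Results.MP_1a3145_co.ConcentricMeasures
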